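import Mathlib

set_option autoImplicit false

namespace Pool.Agent.GT45

/-- The two-step window lemma: going down from `j`, the first `i` at which both
`b i + (j - i) + b j` and `b i + (j + 1 - i) + b (j+1)` have reached the window
`[N - 2α, N + 2]` has both of them in the window. -/
theorem window_step (N α : ℕ) (b : ℕ → ℕ) (hNα : 4 * α + 2 ≤ N)
    (hb1 : ∀ i < 2 * N + 4, 1 ≤ b i) (hb2 : ∀ i < 2 * N + 4, b i ≤ α + 1)
    (j : ℕ) (hj : N + 1 ≤ j) (hj2 : j + 1 < 2 * N + 4) :
    ∃ i, i < j ∧ j ≤ i + (N + 1) ∧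
      (N ≤ 2 * α + (b i + (j - i) + b j) ∧ b i + (j - i) + b j ≤ N + 2) ∧
      (N ≤ 2 * α + (b i + (j + 1 - i) + b (j + 1)) ∧ b i + (j + 1 - i) + b (j + 1) ≤ N + 2) := by
  classical
  have hex : ∃ u, 1 ≤ u ∧ N ≤ 2 * α + (b (j - u) + u + b j) ∧
      N ≤ 2 * α + (b (j - u) + u + 1 + b (j + 1)) := ⟨N + 1, by omega, by omega, by omega⟩
  obtain ⟨h1, h2, h3⟩ := Nat.find_spec hex
  have hle : Nat.find hex ≤ N + 1 := Nat.find_min' hex ⟨by omega, by omega, by omega⟩
  set u := Nat.find hex with hu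
  have hB0 := hb1 j (by omega)
  have hB0' := hb2 j (by omega)
  have hB1 := hb1 (j + 1) (by omega)
  have hB1' := hb2 (j + 1) (by omega)
  have hBu := hb1 (j - u) (by omega)
  have hBu' := hb2 (j - u) (by omega)
  refine ⟨j - u, by omega, by omega, ?_, ?_⟩
  · rcases Nat.lt_or_ge 1 u with hu1 | hu1
    · have hm := Nat.find_min hex (m := u - 1) (by omega)
      have hc := hb1 (j - (u - 1)) (by omega)
      have hc' := hb2 (j - (u - 1)) (by omega)
      have hs : j - (j - u) = u := by omega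
      rw [hs]
      refine ⟨h2, ?_⟩
      by_contra hcon
      exact hm ⟨by omega, by omega, by omega⟩
    · have hs : j - (j - u) = u := by omega
      rw [hs]
      exact ⟨h2, by omega⟩
  · rcases Nat.lt_or_ge 1 u with hu1 | hu1
    · have hm := Nat.find_min hex (m := u - 1) (by omega)
      have hc := hb1 (j - (u - 1)) (by omega)
      have hc' := hb2 (j - (u - 1)) (by omega)
      have hs : j + 1 - (j - u) = u + 1 := by omega
      rw [hs]
      refine ⟨by omega, ?_⟩
      by_contra hcon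
      exact hm ⟨by omega, by omega, by omega⟩
    · have hs : j + 1 - (j - u) = u + 1 := by omega
      rw [hs]
      exact ⟨by omega, by omega⟩

theorem comb_block (N α : ℕ) (b : ℕ → ℕ) (hNα : 4 * α + 2 ≤ N)
    (hb1 : ∀ i < 2 * N + 4, 1 ≤ b i) (hb2 : ∀ i < 2 * N + 4, b i ≤ α + 1)
    (hW : ∀ i j, i < j → j < 2 * N + 4 → N ≤ 2 * α + (b i + (j - i) + b j) →
      b i + (j - i) + b j ≤ N + 2 → (b i + (j - i) + b j) % 2 = 1) : False := by
  have key : ∀ j, N + 1 ≤ j → j + 1 < 2 * N + 4 →
      ∃ i, i < j ∧ j ≤ i + (N + 1) ∧ (i + b i + (j + b j)) % 2 = 1 ∧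
        (j + b j) % 2 = (j + 1 + b (j + 1)) % 2 := by
    intro j hj hj2
    obtain ⟨i, hij, hji, ⟨h1, h2⟩, h3, h4⟩ := window_step N α b hNα hb1 hb2 j hj hj2
    have e1 := hW i j hij (by omega) h1 h2
    have e2 := hW i (j + 1) (by omega) (by omega) h3 h4
    exact ⟨i, hij, hji, by omega, by omega⟩
  have hconst : ∀ d, N + 1 + d < 2 * N + 4 →
      (N + 1 + d + b (N + 1 + d)) % 2 = (N + 1 + b (N + 1)) % 2 := by
    intro d
    induction d with
    | zero => intro _; rfl
    | succ d ih =>
      intro hd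
      obtain ⟨i, _, _, _, h⟩ := key (N + 1 + d) (by omega) (by omega)
      have h0 := ih (by omega)
      have e : N + 1 + (d + 1) = N + 1 + d + 1 := by ring
      rw [e]
      omega
  obtain ⟨i, hij, hji, h, _⟩ := key (2 * N + 2) (by omega) (by omega)
  have e1 := hconst (i - (N + 1)) (by omega)
  have e2 := hconst (N + 1) (by omega)
  have e3 : N + 1 + (i - (N + 1)) = i := by omega
  have e4 : N + 1 + (N + 1) = 2 * N + 2 := by omega
  rw [e3] at e1
  rw [e4] at e2
  omega

/-- The combinatorial core. -/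
theorem comb_main (N : ℕ) (hN : N % 2 = 0) (b : ℕ → ℕ)
    (hb : ∀ i < 3 * (2 * N + 4), 1 ≤ b i) :
    (∃ i j a a', i < 3 * (2 * N + 4) ∧ j < 3 * (2 * N + 4) ∧ i ≠ j ∧ a < b i ∧ a' < b j ∧
      2 * a + 2 * a' = N) ∨
    (∃ i j, i < j ∧ j < 3 * (2 * N + 4) ∧
      (b i + (j - i) + b j = N + 2 ∨ b i + (j - i) + b j = N + 1)) ∨
    (∃ i j l m, i < j ∧ j < 3 * (2 * N + 4) ∧ l < 3 * (2 * N + 4) ∧ (l < i ∨ j < l) ∧ m < b l ∧
      b i + (j - i) + b j + 2 * m = N) := by
  classical
  set M := 2 * N + 4 with hM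
  -- block maxima
  have hmax : ∀ t, ∃ l, t * M ≤ l ∧ l < (t + 1) * M ∧ ∀ i, t * M ≤ i → i < (t + 1) * M →
      b i ≤ b l := by
    intro t
    have hne : (Finset.Ico (t * M) ((t + 1) * M)).Nonempty := by
      rw [Finset.nonempty_Ico]
      nlinarith
    obtain ⟨l, hl, hl2⟩ := Finset.exists_max_image _ b hne
    rw [Finset.mem_Ico] at hl
    exact ⟨l, hl.1, hl.2, fun i h1 h2 => hl2 i (Finset.mem_Ico.2 ⟨h1, h2⟩)⟩
  obtain ⟨l0, h0a, h0b, h0c⟩ := hmax 0
  obtain ⟨l1, h1a, h1b, h1c⟩ := hmax 1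
  obtain ⟨l2, h2a, h2b, h2c⟩ := hmax 2
  simp only [Nat.zero_mul, Nat.zero_add, Nat.one_mul] at h0a h0b h0c h1a h1b h1c
  have e12 : (1 + 1) * M = 2 * M := by ring
  have e23 : (2 + 1) * M = 3 * M := by ring
  rw [e12] at h1b
  rw [e23] at h2b
  -- choose the block with smallest maximum
  have hch : ∃ s α l l', s + M ≤ 3 * M ∧ l < 3 * M ∧ l' < 3 * M ∧ l ≠ l' ∧
      (l < s ∨ s + M ≤ l) ∧ α + 1 ≤ b l ∧ α + 1 ≤ b l' ∧
      (∀ i < M, b (s + i) ≤ α + 1) := by
    have p0 := hb l0 (by omega)
    have p1 := hb l1 (by omega)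
    have p2 := hb l2 (by omega)
    rcases le_total (b l0) (b l1) with h01 | h01
    · rcases le_total (b l0) (b l2) with h02 | h02
      · refine ⟨0, b l0 - 1, l1, l2, by omega, by omega, by omega, by omega, by omega, by omega,
          by omega, ?_⟩
        intro i hi
        have := h0c (0 + i) (by omega) (by omega)
        omega
      · refine ⟨2 * M, b l2 - 1, l0, l1, by omega, by omega, by omega, by omega, by omega,
          by omega, by omega, ?_⟩
        intro i hi
        have := h2c (2 * M + i) (by omega) (by rw [e23]; omega)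
        omega
    · rcases le_total (b l1) (b l2) with h12 | h12
      · refine ⟨M, b l1 - 1, l0, l2, by omega, by omega, by omega, by omega, by omega, by omega,
          by omega, ?_⟩
        intro i hi
        have := h1c (M + i) (by omega) (by rw [e12]; omega)
        omega
      · refine ⟨2 * M, b l2 - 1, l0, l1, by omega, by omega, by omega, by omega, by omega,
          by omega, by omega, ?_⟩
        intro i hi
        have := h2c (2 * M + i) (by omega) (by rw [e23]; omega)
        omega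
  obtain ⟨s, α, l, l', hs, hl, hl', hll, hlout, hbl, hbl', hbs⟩ := hch
  rcases Nat.lt_or_ge (4 * α) N with hcase | hcase
  · -- window case
    by_contra hcon
    rw [not_or, not_or] at hcon
    obtain ⟨hA, hB, hC⟩ := hcon
    refine comb_block N α (fun i => b (s + i)) (by omega) ?_ ?_ ?_
    · intro i hi
      exact hb _ (by omega)
    · intro i hi
      exact hbs i hi
    · intro i j hij hj h1 h2
      by_contra hodd
      have hsub : (s + j) - (s + i) = j - i := by omega
      rcases Nat.lt_or_ge N (b (s + i) + (j - i) + b (s + j)) with hgt | hle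
      · refine hB ⟨s + i, s + j, by omega, by omega, ?_⟩
        rw [hsub]
        omega
      · refine hC ⟨s + i, s + j, l, (N - (b (s + i) + (j - i) + b (s + j))) / 2, by omega,
          by omega, hl, ?_, ?_, ?_⟩
        · omega
        · omega
        · rw [hsub]
          omega
  · left
    rcases Nat.lt_or_ge (2 * α) N with h2 | h2
    · exact ⟨l, l', α, N / 2 - α, hl, hl', hll, by omega, by omega, by omega⟩
    · exact ⟨l, l', N / 2, 0, hl, hl', hll, by omega, by omega, by omega⟩

end Pool.Agent.GT45
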