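import Mathlib
import Pool.Agent.Lib_helper45.GT.Comb

set_option autoImplicit false

namespace Pool.Agent.GT45

open SimpleGraph

variable {V : Type*} {G : SimpleGraph V}

/-- there is a path from `a` to `b` of length `L` with all vertices in `S` -/
def Pth (G : SimpleGraph V) (a b : V) (L : ℕ) (S : Set V) : Prop :=
  ∃ p : G.Walk a b, p.IsPath ∧ p.length = L ∧ ∀ v ∈ p.support, v ∈ S

theorem Pth.nil {a : V} {S : Set V} (h : a ∈ S) : Pth G a a 0 S :=
  ⟨Walk.nil, Walk.IsPath.nil, rfl, by
    intro v hv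
    rw [Walk.support_nil, List.mem_singleton] at hv
    rw [hv]; exact h⟩

theorem Pth.mono {a b : V} {L : ℕ} {S S' : Set V} (h : Pth G a b L S) (hS : S ⊆ S') :
    Pth G a b L S' := by
  obtain ⟨p, h1, h2, h3⟩ := h
  exact ⟨p, h1, h2, fun v hv => hS (h3 v hv)⟩

theorem Pth.symm {a b : V} {L : ℕ} {S : Set V} (h : Pth G a b L S) : Pth G b a L S := by
  obtain ⟨p, h1, h2, h3⟩ := h
  refine ⟨p.reverse, h1.reverse, by rw [Walk.length_reverse, h2], ?_⟩
  intro v hv
  rw [Walk.support_reverse, List.mem_reverse] at hv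
  exact h3 v hv

theorem Pth.left_mem {a b : V} {L : ℕ} {S : Set V} (h : Pth G a b L S) : a ∈ S := by
  obtain ⟨p, h1, h2, h3⟩ := h
  exact h3 _ p.start_mem_support

theorem Pth.right_mem {a b : V} {L : ℕ} {S : Set V} (h : Pth G a b L S) : b ∈ S := by
  obtain ⟨p, h1, h2, h3⟩ := h
  exact h3 _ p.end_mem_support

theorem Pth.join {a b c d : V} {L L' : ℕ} {S S' : Set V} (h : Pth G a b L S)
    (hbc : G.Adj b c) (h' : Pth G c d L' S') (hd : Disjoint S S') :
    Pth G a d (L + 1 + L') (S ∪ S') := by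
  obtain ⟨p, h1, h2, h3⟩ := h
  obtain ⟨q, k1, k2, k3⟩ := h'
  refine ⟨p.append (Walk.cons hbc q), ?_, ?_, ?_⟩
  · rw [Walk.isPath_def, Walk.support_append, Walk.support_cons, List.tail_cons,
      List.nodup_append']
    refine ⟨h1.support_nodup, k1.support_nodup, ?_⟩
    intro v hv hv'
    exact Set.disjoint_left.1 hd (h3 v hv) (k3 v hv')
  · rw [Walk.length_append, Walk.length_cons, h2, k2]
    ring
  · intro v hv
    rw [Walk.support_append, Walk.support_cons, List.tail_cons, List.mem_append] at hv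
    rcases hv with hv | hv
    · exact Or.inl (h3 v hv)
    · exact Or.inr (k3 v hv)

theorem Pth.close {a b t : V} {L : ℕ} {S : Set V} (h : Pth G a b L S) (hL : 1 ≤ L)
    (hta : G.Adj t a) (htb : G.Adj t b) (ht : t ∉ S) :
    ∃ (u : V) (w : G.Walk u u), w.IsCycle ∧ w.length = L + 2 := by
  obtain ⟨w, hw, hl, hS⟩ := h
  have hab : a ≠ b := by
    rintro rfl
    have h0 := (Walk.isPath_iff_nil.1 hw).eq_nil
    rw [h0] at hl
    simp at hl
    omega
  have hnot : t ∉ w.support := fun h => ht (hS t h)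
  refine ⟨t, Walk.cons hta (w.concat htb.symm), ?_, ?_⟩
  · rw [Walk.cons_isCycle_iff]
    refine ⟨?_, ?_⟩
    · rw [Walk.concat_isPath_iff]
      exact ⟨hw, hnot⟩
    · rw [Walk.edges_concat, List.concat_eq_append, List.mem_append, List.mem_singleton]
      rintro (h | h)
      · exact hnot (Walk.fst_mem_support_of_mem_edges _ h)
      · rw [Sym2.eq_iff] at h
        rcases h with ⟨h1, h2⟩ | ⟨h1, h2⟩
        · exact htb.ne h1
        · exact hab h2
  · rw [Walk.length_cons, Walk.length_concat, hl]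

/-- the vertex `z` is joined to both of `x`, `y` -/
def Term (G : SimpleGraph V) (x y z : V) : Prop := G.Adj x z ∧ G.Adj y z

/-- two vertex-disjoint paths between neighbours of both `x` and `y` close up to a cycle -/
theorem two_paths {x y a b c d : V} {L L' : ℕ} {S S' : Set V} (hxy : G.Adj x y)
    (ha : Term G x y a) (hb : Term G x y b) (hc : Term G x y c) (hd : Term G x y d)
    (h : Pth G a b L S) (h' : Pth G c d L' S') (hdis : Disjoint S S')
    (hx : x ∉ S) (hy : y ∉ S) (hx' : x ∉ S') (hy' : y ∉ S') :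
    ∃ (u : V) (w : G.Walk u u), w.IsCycle ∧ w.length = L + L' + 4 := by
  have h1 : Pth G a y (L + 1 + 0) (S ∪ {y}) :=
    h.join hb.2.symm (Pth.nil (Set.mem_singleton y)) (Set.disjoint_singleton_right.2 hy)
  have h2 : Pth G a d (L + 1 + 0 + 1 + L') (S ∪ {y} ∪ S') := by
    refine h1.join hc.2 h' ?_
    rw [Set.disjoint_union_left]
    exact ⟨hdis, Set.disjoint_singleton_left.2 hy'⟩
  obtain ⟨u, w, hw, hl⟩ := h2.close (by omega) ha.1 hd.1 (by
    rintro ((h | h) | h)
    · exact hx h
    · exact hxy.ne h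
    · exact hx' h)
  exact ⟨u, w, hw, by omega⟩

/-- a path between neighbours of both, closed by the edge `xy` -/
theorem path_edge {x y a b : V} {L : ℕ} {S : Set V} (hxy : G.Adj x y)
    (ha : Term G x y a) (hb : Term G x y b) (h : Pth G a b L S)
    (hx : x ∉ S) (hy : y ∉ S) :
    ∃ (u : V) (w : G.Walk u u), w.IsCycle ∧ w.length = L + 3 := by
  have h1 : Pth G a y (L + 1 + 0) (S ∪ {y}) :=
    h.join hb.2.symm (Pth.nil (Set.mem_singleton y)) (Set.disjoint_singleton_right.2 hy)
  obtain ⟨u, w, hw, hl⟩ := h1.close (by omega) ha.1 hxy (by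
    rintro (h | h)
    · exact hx h
    · exact hxy.ne h)
  exact ⟨u, w, hw, by omega⟩

/-- a spine `p 0, …, p (L-1)`: a path with pairwise disjoint pieces `U i ∋ p i`, such that inside
`U i` there is a path of length `b i` from `p i` to a common neighbour of `x, y`, and paths of
all lengths `2m`, `m < b i`, between common neighbours of `x, y`. -/
structure Spine (G : SimpleGraph V) (x y : V) (L : ℕ) (p : ℕ → V) (U : ℕ → Set V)
    (b : ℕ → ℕ) : Prop where
  adjxy : G.Adj x y
  adj : ∀ i, i + 1 < L → G.Adj (p i) (p (i + 1))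
  disj : ∀ i j, i < L → j < L → i ≠ j → Disjoint (U i) (U j)
  xU : ∀ i < L, x ∉ U i
  yU : ∀ i < L, y ∉ U i
  bpos : ∀ i < L, 1 ≤ b i
  down : ∀ i < L, ∃ z, Term G x y z ∧ Pth G z (p i) (b i) (U i)
  small : ∀ i < L, ∀ m < b i, ∃ z z', Term G x y z ∧ Term G x y z' ∧ Pth G z z' (2 * m) (U i)

namespace Spine

variable {x y : V} {L : ℕ} {p : ℕ → V} {U : ℕ → Set V} {b : ℕ → ℕ}

/-- the union of the pieces `U i, …, U j` -/
def Uu (U : ℕ → Set V) (i j : ℕ) : Set V := {v | ∃ l, i ≤ l ∧ l ≤ j ∧ v ∈ U l}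

theorem p_mem (S : Spine G x y L p U b) {i : ℕ} (hi : i < L) : p i ∈ U i := by
  obtain ⟨z, _, h⟩ := S.down i hi
  exact h.right_mem

theorem run (S : Spine G x y L p U b) {i : ℕ} {z : V} (hi : i < L)
    (hz : Pth G z (p i) (b i) (U i)) :
    ∀ d, i + d < L → Pth G z (p (i + d)) (b i + d) (Uu U i (i + d)) := by
  intro d
  induction d with
  | zero =>
    intro _
    exact hz.mono (fun v hv => ⟨i, le_rfl, le_rfl, hv⟩)
  | succ d ih =>
    intro hd
    have h0 := ih (by omega)
    have h1 := h0.join (S.adj (i + d) (by omega)) (Pth.nil (G := G) (S.p_mem (i := i + d + 1) (by omega))) (by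
      rw [Set.disjoint_left]
      rintro v ⟨l, h1, h2, h3⟩ h4
      exact Set.disjoint_left.1 (S.disj l (i + d + 1) (by omega) (by omega) (by omega)) h3 h4)
    have h2 := h1.mono (S' := Uu U i (i + (d + 1))) (by
      rintro v (⟨l, h1, h2, h3⟩ | h)
      · exact ⟨l, h1, by omega, h3⟩
      · exact ⟨i + d + 1, by omega, by omega, h⟩)
    exact h2

/-- the path between the chosen terminals of branches `i < j` -/
theorem long (S : Spine G x y L p U b) {i j : ℕ} (hij : i < j) (hj : j < L) :
    ∃ z z', Term G x y z ∧ Term G x y z' ∧ Pth G z z' (b i + (j - i) + b j) (Uu U i j) := by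
  obtain ⟨z, hz, hp⟩ := S.down i (by omega)
  obtain ⟨z', hz', hp'⟩ := S.down j (by omega)
  refine ⟨z, z', hz, hz', ?_⟩
  have h0 := S.run (by omega) hp (j - 1 - i) (by omega)
  have e : i + (j - 1 - i) = j - 1 := by omega
  rw [e] at h0
  have ha := S.adj (j - 1) (by omega)
  have e2 : j - 1 + 1 = j := by omega
  rw [e2] at ha
  have h1 := h0.join ha hp'.symm (by
    rw [Set.disjoint_left]
    rintro v ⟨l, h1, h2, h3⟩ h4
    exact Set.disjoint_left.1 (S.disj l j (by omega) (by omega) (by omega)) h3 h4)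
  have e3 : b i + (j - 1 - i) + 1 + b j = b i + (j - i) + b j := by omega
  rw [e3] at h1
  exact h1.mono (by
    rintro v (⟨l, h1, h2, h3⟩ | h)
    · exact ⟨l, h1, by omega, h3⟩
    · exact ⟨j, by omega, by omega, h⟩)

theorem not_mem_Uu (S : Spine G x y L p U b) {i j : ℕ} (hj : j < L) :
    x ∉ Uu U i j ∧ y ∉ Uu U i j := by
  constructor
  · rintro ⟨l, h1, h2, h3⟩
    exact S.xU l (by omega) h3
  · rintro ⟨l, h1, h2, h3⟩
    exact S.yU l (by omega) h3

/-- **Theorem A.** A spine with at least `12 (k-1)` branches gives a cycle of length `2k`. -/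
theorem cycle (S : Spine G x y L p U b) {k : ℕ} (hk : 2 ≤ k) (hL : 12 * (k - 1) ≤ L) :
    ∃ (u : V) (w : G.Walk u u), w.IsCycle ∧ w.length = 2 * k := by
  have hL' : 3 * (2 * (2 * k - 4) + 4) ≤ L := by omega
  rcases comb_main (2 * k - 4) (by omega) b (fun i hi => S.bpos i (by omega)) with
    ⟨i, j, a, a', hi, hj, hij, ha, ha', he⟩ | ⟨i, j, hij, hj, he⟩ |
      ⟨i, j, l, m, hij, hj, hl, hout, hm, he⟩
  · obtain ⟨z, z', hz, hz', hp⟩ := S.small i (by omega) a ha
    obtain ⟨t, t', ht, ht', hq⟩ := S.small j (by omega) a' ha'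
    obtain ⟨u, w, hw, hl⟩ := two_paths S.adjxy hz hz' ht ht' hp hq
      (S.disj i j (by omega) (by omega) hij) (S.xU i (by omega)) (S.yU i (by omega))
      (S.xU j (by omega)) (S.yU j (by omega))
    exact ⟨u, w, hw, by omega⟩
  · obtain ⟨z, z', hz, hz', hp⟩ := S.long hij (by omega)
    obtain ⟨hx, hy⟩ := S.not_mem_Uu (i := i) (j := j) (by omega)
    rcases he with he | he
    · obtain ⟨u, w, hw, hl⟩ := hp.close (by omega) hz.1 hz'.1 hx
      exact ⟨u, w, hw, by omega⟩
    · obtain ⟨u, w, hw, hl⟩ := path_edge S.adjxy hz hz' hp hx hy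
      exact ⟨u, w, hw, by omega⟩
  · obtain ⟨z, z', hz, hz', hp⟩ := S.long hij (by omega)
    obtain ⟨hx, hy⟩ := S.not_mem_Uu (i := i) (j := j) (by omega)
    obtain ⟨t, t', ht, ht', hq⟩ := S.small l (by omega) m hm
    obtain ⟨u, w, hw, hl⟩ := two_paths S.adjxy hz hz' ht ht' hp hq (by
        rw [Set.disjoint_left]
        rintro v ⟨l', h1, h2, h3⟩ h4
        exact Set.disjoint_left.1 (S.disj l' l (by omega) (by omega) (by omega)) h3 h4)
      hx hy (S.xU l (by omega)) (S.yU l (by omega))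
    exact ⟨u, w, hw, by omega⟩

end Spine

/-! ### rooted binary trees -/

/-- `RT G x y v S h`: a binary tree rooted at `v` with all its vertices in `S`, whose leaves are
joined to both `x` and `y`, and with `h = 0` at leaves, `h = 1 + min` at inner vertices. -/
inductive RT (G : SimpleGraph V) (x y : V) : V → Set V → ℕ → Prop
  | leaf (v : V) (S : Set V) (hv : v ∈ S) (ht : Term G x y v) : RT G x y v S 0
  | node (v a b : V) (S A B : Set V) (h k : ℕ) (ha : RT G x y a A h) (hb : RT G x y b B k)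
      (hva : G.Adj v a) (hvb : G.Adj v b) (hA : v ∉ A) (hB : v ∉ B) (hAB : Disjoint A B)
      (hvS : v ∈ S) (hAS : A ⊆ S) (hBS : B ⊆ S) : RT G x y v S (1 + min h k)

theorem RT.down {x y v : V} {S : Set V} {h : ℕ} (H : RT G x y v S h) :
    ∃ z, Term G x y z ∧ Pth G z v h S := by
  induction H with
  | leaf v S hv ht => exact ⟨v, ht, Pth.nil hv⟩
  | node v a b S A B h k ha hb hva hvb hA hB hAB hvS hAS hBS iha ihb =>
    rcases le_total h k with hk | hk
    · obtain ⟨z, hz, hp⟩ := iha
      refine ⟨z, hz, ?_⟩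
      have h1 := hp.join hva.symm (Pth.nil (Set.mem_singleton v)) (Set.disjoint_singleton_right.2 hA)
      rw [min_eq_left hk]
      have e : 1 + h = h + 1 + 0 := by ring
      rw [e]
      exact h1.mono (Set.union_subset hAS (Set.singleton_subset_iff.2 hvS))
    · obtain ⟨z, hz, hp⟩ := ihb
      refine ⟨z, hz, ?_⟩
      have h1 := hp.join hvb.symm (Pth.nil (Set.mem_singleton v)) (Set.disjoint_singleton_right.2 hB)
      rw [min_eq_right hk]
      have e : 1 + k = k + 1 + 0 := by ring
      rw [e]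
      exact h1.mono (Set.union_subset hBS (Set.singleton_subset_iff.2 hvS))

/-- paths of length `2m` between terminals inside a rooted binary tree, `m ≤ h` -/
theorem RT.small {x y v : V} {S : Set V} {h : ℕ} (H : RT G x y v S h) :
    ∀ m ≤ h, ∃ z z', Term G x y z ∧ Term G x y z' ∧ Pth G z z' (2 * m) S := by
  induction H with
  | leaf v S hv ht =>
    intro m hm
    have : m = 0 := by omega
    subst this
    exact ⟨v, v, ht, ht, Pth.nil hv⟩
  | node v a b S A B h k ha hb hva hvb hA hB hAB hvS hAS hBS iha ihb =>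
    intro m hm
    rcases Nat.lt_or_ge h m with hlt | hge
    · rcases Nat.lt_or_ge k m with hlt' | hge'
      · -- m = h + 1 = k + 1
        have e1 : h + 1 = m := by omega
        have e2 : k + 1 = m := by omega
        obtain ⟨z, hz, hp⟩ := ha.down
        obtain ⟨z', hz', hp'⟩ := hb.down
        refine ⟨z, z', hz, hz', ?_⟩
        have h1 := hp.join hva.symm (Pth.nil (Set.mem_singleton v))
          (Set.disjoint_singleton_right.2 hA)
        have h2 := h1.join hvb hp'.symm (by
          rw [Set.disjoint_union_left]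
          exact ⟨hAB, Set.disjoint_singleton_left.2 hB⟩)
        have e : 2 * m = h + 1 + 0 + 1 + k := by omega
        rw [e]
        exact h2.mono (Set.union_subset (Set.union_subset hAS (Set.singleton_subset_iff.2 hvS)) hBS)
      · obtain ⟨z, z', h1, h2, h3⟩ := ihb m hge'
        exact ⟨z, z', h1, h2, h3.mono hBS⟩
    · obtain ⟨z, z', h1, h2, h3⟩ := iha m hge
      exact ⟨z, z', h1, h2, h3.mono hAS⟩

end Pool.Agent.GT45
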