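import Mathlib
import Pool.Agent.Lib_helper45.GT.Graph

set_option autoImplicit false

namespace Pool.Agent.GT45

open SimpleGraph

section

variable {W : Type*} {T : SimpleGraph W}

/-- in a tree, at most one neighbour of `v` is not farther from `r` than `v` -/
theorem unique_lower (hT : T.IsTree) {r v u u' : W} (h : T.Adj v u) (h' : T.Adj v u')
    (hd : T.dist r u ≤ T.dist r v) (hd' : T.dist r u' ≤ T.dist r v) : u = u' := by
  classical
  obtain ⟨q, hq, hql⟩ := hT.connected.exists_path_of_dist r v
  have key : ∀ w, T.Adj v w → T.dist r w ≤ T.dist r v → w = q.penultimate := by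
    intro w hw hdw
    obtain ⟨p, hp, hpl⟩ := hT.connected.exists_path_of_dist r w
    have hv : v ∉ p.support := by
      intro hv
      have h1 : T.dist r v ≤ (p.takeUntil v hv).length := dist_le _
      have h2 : T.dist v w ≤ (p.dropUntil v hv).length := dist_le _
      have h3 : (p.takeUntil v hv).length + (p.dropUntil v hv).length = p.length := by
        rw [← Walk.length_append, Walk.take_spec]
      have h4 : T.dist v w = 1 := dist_eq_one_iff_adj.2 hw
      omega
    exact hT.isAcyclic.eq_penultimate_of_adj_end hq hw
      (hT.isAcyclic.mem_support_of_ne_mem_support_of_adj_of_isPath hq hp hw hv)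
  rw [key u h hd, key u' h' hd']

/-- the descendants of `v` in the tree rooted at `r` -/
def Desc (T : SimpleGraph W) (r v : W) : Set W := {w | T.dist r w = T.dist r v + T.dist v w}

theorem self_mem_desc (r v : W) : v ∈ Desc T r v := by
  unfold Desc
  rw [Set.mem_ofPred_eq, dist_self, add_zero]

theorem child_desc (hT : T.IsTree) {r v a : W} (hva : T.Adj v a)
    (hd : T.dist r a = T.dist r v + 1) {w : W} (hw : w ∈ Desc T r a) :
    w ∈ Desc T r v ∧ T.dist v w = T.dist a w + 1 := by
  unfold Desc at hw ⊢
  rw [Set.mem_ofPred_eq] at hw ⊢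
  have h1 := hT.connected.dist_triangle (u := r) (v := v) (w := w)
  have h2 := hT.connected.dist_triangle (u := v) (v := a) (w := w)
  have h3 : T.dist v a = 1 := dist_eq_one_iff_adj.2 hva
  omega

theorem parent_not_mem {r v a : W} (hva : T.Adj v a)
    (hd : T.dist r a = T.dist r v + 1) : v ∉ Desc T r a := by
  unfold Desc
  rw [Set.mem_ofPred_eq]
  have h3 : T.dist a v = 1 := dist_eq_one_iff_adj.2 hva.symm
  omega

theorem children_disjoint (hT : T.IsTree) {r v a b : W} (hva : T.Adj v a) (hvb : T.Adj v b)
    (hda : T.dist r a = T.dist r v + 1) (hdb : T.dist r b = T.dist r v + 1) (hab : a ≠ b) :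
    Disjoint (Desc T r a) (Desc T r b) := by
  rw [Set.disjoint_left]
  intro w hw hw'
  have h1 := (child_desc hT hva hda hw).2
  have h2 := (child_desc hT hvb hdb hw').2
  refine hab (unique_lower hT (r := w) hva hvb ?_ ?_)
  · rw [T.dist_comm (u := w) (v := a), T.dist_comm (u := w) (v := v)]; omega
  · rw [T.dist_comm (u := w) (v := b), T.dist_comm (u := w) (v := v)]; omega

/-- a vertex with three neighbours has two children -/
theorem two_children (hT : T.IsTree) (r : W) {v : W} (h3 : (T.neighborSet v).ncard = 3) :
    ∃ a b, a ≠ b ∧ T.Adj v a ∧ T.Adj v b ∧ T.dist r a = T.dist r v + 1 ∧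
      T.dist r b = T.dist r v + 1 := by
  obtain ⟨a, b, c, hab, hac, hbc, hs⟩ := Set.ncard_eq_three.1 h3
  have ha : T.Adj v a := by
    have : a ∈ T.neighborSet v := by rw [hs]; simp
    exact this
  have hb : T.Adj v b := by
    have : b ∈ T.neighborSet v := by rw [hs]; simp
    exact this
  have hc : T.Adj v c := by
    have : c ∈ T.neighborSet v := by rw [hs]; simp
    exact this
  have da := hT.dist_eq_dist_add_one_of_adj r ha
  have db := hT.dist_eq_dist_add_one_of_adj r hb
  have dc := hT.dist_eq_dist_add_one_of_adj r hc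
  rcases da with da | da
  · rcases db with db | db
    · exact absurd (unique_lower hT (r := r) ha hb (by omega) (by omega)) hab
    · rcases dc with dc | dc
      · exact absurd (unique_lower hT (r := r) ha hc (by omega) (by omega)) hac
      · exact ⟨b, c, hbc, hb, hc, db, dc⟩
  · rcases db with db | db
    · rcases dc with dc | dc
      · exact absurd (unique_lower hT (r := r) hb hc (by omega) (by omega)) hbc
      · exact ⟨a, c, hac, ha, hc, da, dc⟩
    · exact ⟨a, b, hab, ha, hb, da, db⟩

/-- the descendants of a vertex other than itself are descendants of its children -/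
theorem desc_cover (hT : T.IsTree) {r v w : W} (hw : w ∈ Desc T r v) (hne : w ≠ v) :
    ∃ a, T.Adj v a ∧ T.dist r a = T.dist r v + 1 ∧ w ∈ Desc T r a := by
  obtain ⟨p, hp, hpl⟩ := hT.connected.exists_path_of_dist v w
  cases p with
  | nil => exact absurd rfl hne
  | cons h q =>
    rename_i a
    refine ⟨a, h, ?_⟩
    rw [Walk.length_cons] at hpl
    have h1 : T.dist a w ≤ q.length := dist_le q
    have h2 := hT.connected.dist_triangle (u := r) (v := a) (w := w)
    have h3 := hT.connected.dist_triangle (u := r) (v := v) (w := a)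
    have h4 : T.dist v a = 1 := dist_eq_one_iff_adj.2 h
    unfold Desc at hw ⊢
    rw [Set.mem_ofPred_eq] at hw ⊢
    omega

/-- counting: a vertex all of whose descendants are within distance `e` has fewer than
`2 ^ (e + 1)` descendants (all degrees at most three, the vertex has a neighbour closer to `r`) -/
theorem card_desc [Finite W] (hT : T.IsTree) (r : W) (h3 : ∀ v, (T.neighborSet v).ncard ≤ 3)
    (E : ℕ) (hE : ∀ w, T.dist r w ≤ E) :
    ∀ e v, v ≠ r → E ≤ T.dist r v + e → (Desc T r v).ncard + 1 ≤ 2 ^ (e + 1) := by
  classical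
  intro e
  induction e with
  | zero =>
    intro v hv hle
    have hs : Desc T r v ⊆ {v} := by
      intro w hw
      by_contra hne
      obtain ⟨a, h1, h2, h4⟩ := desc_cover hT hw hne
      have := hE a
      omega
    have h1 := Set.ncard_le_ncard hs (Set.finite_singleton v)
    rw [Set.ncard_singleton] at h1
    omega
  | succ e ih =>
    intro v hv hle
    -- the children of `v`
    set C : Set W := {a | T.Adj v a ∧ T.dist r a = T.dist r v + 1} with hC
    have hCcard : C.ncard ≤ 2 := by
      obtain ⟨p, hp, hpl⟩ := hT.connected.exists_path_of_dist v r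
      cases p with
      | nil => exact absurd rfl hv
      | cons h q =>
        rename_i u
        rw [Walk.length_cons] at hpl
        have h1 : T.dist u r ≤ q.length := dist_le q
        have hu : u ∉ C := by
          rintro ⟨_, h5⟩
          rw [T.dist_comm (u := r) (v := u), T.dist_comm (u := r) (v := v)] at h5
          omega
        have hsub : insert u C ⊆ T.neighborSet v := by
          intro a ha
          rcases ha with rfl | ha
          · exact h
          · exact ha.1
        have h2 := Set.ncard_le_ncard hsub (Set.toFinite _)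
        rw [Set.ncard_insert_of_notMem hu (Set.toFinite _)] at h2
        have := h3 v
        omega
    have hcov : Desc T r v ⊆ insert v (⋃ a ∈ C, Desc T r a) := by
      intro w hw
      by_cases hne : w = v
      · exact Or.inl hne
      · obtain ⟨a, h1, h2, h4⟩ := desc_cover hT hw hne
        right
        rw [Set.mem_iUnion₂]
        exact ⟨a, ⟨h1, h2⟩, h4⟩
    have hch : ∀ a ∈ C, (Desc T r a).ncard + 1 ≤ 2 ^ (e + 1) := by
      intro a ha
      refine ih a ?_ ?_
      · rintro rfl
        have := ha.2
        rw [dist_self] at this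
        omega
      · have := ha.2
        omega
    have hle1 := Set.ncard_le_ncard hcov (Set.toFinite _)
    have hins : (insert v (⋃ a ∈ C, Desc T r a)).ncard ≤ (⋃ a ∈ C, Desc T r a).ncard + 1 :=
      Set.ncard_insert_le _ _
    have hU : (⋃ a ∈ C, Desc T r a).ncard + 2 ≤ 2 ^ (e + 2) := by
      have hCfin : C.Finite := Set.toFinite _
      rcases Nat.lt_or_ge C.ncard 1 with h0 | h0
      · have : C = ∅ := by
          rw [← Set.ncard_eq_zero hCfin]
          omega
        rw [this]
        simp only [Set.mem_empty_iff_false, Set.iUnion_of_empty, Set.iUnion_empty, Set.ncard_empty]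
        have : 2 ^ 1 ≤ 2 ^ (e + 2) := Nat.pow_le_pow_right (by norm_num) (by omega)
        omega
      · rcases Nat.lt_or_ge C.ncard 2 with h01 | h01
        · obtain ⟨a, ha⟩ := Set.ncard_eq_one.1 (show C.ncard = 1 by omega)
          have h5 := hch a (by rw [ha]; exact Set.mem_singleton a)
          rw [ha]
          rw [Set.biUnion_singleton]
          have h6 : 2 ^ (e + 2) = 2 * 2 ^ (e + 1) := by ring
          have h7 : 1 ≤ 2 ^ (e + 1) := Nat.one_le_two_pow
          omega
        · obtain ⟨a, b, hab, hs⟩ := Set.ncard_eq_two.1 (show C.ncard = 2 by omega)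
          have h5 := hch a (by rw [hs]; simp)
          have h6 := hch b (by rw [hs]; simp)
          rw [hs, Set.biUnion_pair]
          have h7 := Set.ncard_union_le (Desc T r a) (Desc T r b)
          have h8 : 2 ^ (e + 2) = 2 * 2 ^ (e + 1) := by ring
          omega
    have h9 : 2 ^ (e + 1 + 1) = 2 ^ (e + 2) := by ring
    omega

/-- a tree with all degrees at most three and radius at most `E` around a vertex of degree one
has at most `2 ^ E` vertices. -/
theorem card_le [Finite W] (hT : T.IsTree) (r : W) (hr : (T.neighborSet r).ncard = 1)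
    (h3 : ∀ v, (T.neighborSet v).ncard ≤ 3)
    (E : ℕ) (hE : ∀ w, T.dist r w ≤ E) : Nat.card W ≤ 2 ^ E := by
  classical
  obtain ⟨c, hc⟩ := Set.ncard_eq_one.1 hr
  have hrc : T.Adj r c := by
    have : c ∈ T.neighborSet r := by rw [hc]; exact Set.mem_singleton c
    exact this
  have hd : T.dist r c = 1 := dist_eq_one_iff_adj.2 hrc
  have hE1 : 1 ≤ E := by
    have := hE c
    omega
  have h1 := card_desc hT r h3 E hE (E - 1) c hrc.symm.ne (by omega)
  have hcov : (Set.univ : Set W) ⊆ insert r (Desc T r c) := by
    intro w _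
    by_cases hne : w = r
    · exact Or.inl hne
    · right
      have hw : w ∈ Desc T r r := by
        unfold Desc
        rw [Set.mem_ofPred_eq, dist_self, zero_add]
      obtain ⟨a, h1, h2, h4⟩ := desc_cover hT hw hne
      have h5 : a ∈ T.neighborSet r := h1
      rw [hc, Set.mem_singleton_iff] at h5
      rw [← h5]
      exact h4
  have h2 := Set.ncard_le_ncard hcov (Set.toFinite _)
  rw [Set.ncard_univ] at h2
  have h4 : (insert r (Desc T r c)).ncard ≤ (Desc T r c).ncard + 1 := Set.ncard_insert_le _ _
  have h5 : E - 1 + 1 = E := by omega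
  rw [h5] at h1
  omega

end

section embed

variable {W V : Type*} {T : SimpleGraph W} {G : SimpleGraph V} {x y : V} {f : W → V}

/-- the hanging trees -/
theorem exists_RT (hT : T.IsTree) (r : W) (hf : Function.Injective f)
    (hadj : ∀ a b, T.Adj a b → G.Adj (f a) (f b))
    (hdeg : ∀ v, (T.neighborSet v).ncard = 3 ∨ (T.neighborSet v).ncard = 1)
    (hterm : ∀ v, (T.neighborSet v).ncard = 1 → Term G x y (f v))
    (E : ℕ) (hE : ∀ w, T.dist r w ≤ E) :
    ∀ e v, E ≤ T.dist r v + e → ∃ h, RT G x y (f v) (f '' Desc T r v) h := by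
  intro e
  induction e with
  | zero =>
    intro v hle
    rcases hdeg v with h | h
    · obtain ⟨a, b, hab, h1, h2, h3, h4⟩ := two_children hT r h
      have := hE a
      omega
    · exact ⟨0, RT.leaf _ _ (Set.mem_image_of_mem f (self_mem_desc r v)) (hterm v h)⟩
  | succ e ih =>
    intro v hle
    rcases hdeg v with h | h
    · obtain ⟨a, b, hab, h1, h2, h3, h4⟩ := two_children hT r h
      obtain ⟨ha, Ha⟩ := ih a (by omega)
      obtain ⟨hb, Hb⟩ := ih b (by omega)
      refine ⟨1 + min ha hb, RT.node (f v) (f a) (f b) _ (f '' Desc T r a) (f '' Desc T r b)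
        ha hb Ha Hb (hadj _ _ h1) (hadj _ _ h2) ?_ ?_ ?_ ?_ ?_ ?_⟩
      · rw [hf.mem_set_image]
        exact parent_not_mem h1 h3
      · rw [hf.mem_set_image]
        exact parent_not_mem h2 h4
      · exact (Set.disjoint_image_iff hf).2 (children_disjoint hT h1 h2 h3 h4 hab)
      · exact Set.mem_image_of_mem f (self_mem_desc r v)
      · exact Set.image_mono (fun w hw => (child_desc hT h1 h3 hw).1)
      · exact Set.image_mono (fun w hw => (child_desc hT h2 h4 hw).1)
    · exact ⟨0, RT.leaf _ _ (Set.mem_image_of_mem f (self_mem_desc r v)) (hterm v h)⟩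

/-- the spine along a geodesic from `r` to `z` -/
theorem exists_spine [Finite W] (hT : T.IsTree) (r z : W) (hf : Function.Injective f)
    (hadj : ∀ a b, T.Adj a b → G.Adj (f a) (f b))
    (hdeg : ∀ v, (T.neighborSet v).ncard = 3 ∨ (T.neighborSet v).ncard = 1)
    (hterm : ∀ v, (T.neighborSet v).ncard = 1 → Term G x y (f v))
    (hxy : G.Adj x y) (hx : ∀ w, f w ≠ x) (hy : ∀ w, f w ≠ y) :
    ∃ p U b, Spine G x y (T.dist r z - 1) p U b := by
  classical
  obtain ⟨w, hw, hwl⟩ := hT.connected.exists_path_of_dist r z
  set g : ℕ → W := w.getVert with hg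
  set n := T.dist r z with hn
  have hgadj : ∀ i, i < n → T.Adj (g i) (g (i + 1)) := by
    intro i hi
    exact w.adj_getVert_succ (by omega)
  have hgd : ∀ i, i ≤ n → T.dist r (g i) = i := by
    have hup : ∀ i, i ≤ n → T.dist r (g i) ≤ i := by
      intro i
      induction i with
      | zero =>
        intro _
        have : g 0 = r := w.getVert_zero
        rw [this, dist_self]
      | succ i ih =>
        intro hi
        have h1 := ih (by omega)
        have h2 := hT.connected.dist_triangle (u := r) (v := g i) (w := g (i + 1))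
        have h3 : T.dist (g i) (g (i + 1)) = 1 := dist_eq_one_iff_adj.2 (hgadj i (by omega))
        omega
    have hdown : ∀ d, d ≤ n → T.dist (g (n - d)) z ≤ d := by
      intro d
      induction d with
      | zero =>
        intro _
        have : g (n - 0) = z := by
          rw [Nat.sub_zero, hg, ← hwl]
          exact w.getVert_length
        rw [this, dist_self]
      | succ d ih =>
        intro hd
        have h1 := ih (by omega)
        have h2 := hT.connected.dist_triangle (u := g (n - (d + 1))) (v := g (n - d)) (w := z)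
        have h4 := hgadj (n - (d + 1)) (by omega)
        have e : n - (d + 1) + 1 = n - d := by omega
        rw [e] at h4
        have h3 : T.dist (g (n - (d + 1))) (g (n - d)) = 1 := dist_eq_one_iff_adj.2 h4
        omega
    intro i hi
    have h1 := hup i hi
    have h2 := hdown (n - i) (by omega)
    have e : n - (n - i) = i := by omega
    rw [e] at h2
    have h3 := hT.connected.dist_triangle (u := r) (v := g i) (w := z)
    omega
  obtain ⟨E, hE⟩ : ∃ E, ∀ w, T.dist r w ≤ E := by
    obtain ⟨E, hE⟩ := (Set.finite_range (fun w => T.dist r w)).bddAbove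
    exact ⟨E, fun w => hE ⟨w, rfl⟩⟩
  have hRT := exists_RT hT r hf hadj hdeg hterm E hE
  -- the side branches
  have hq : ∀ i, i < n - 1 → ∃ q h, T.Adj (g (i + 1)) q ∧ T.dist r q = i + 2 ∧ q ≠ g (i + 2) ∧
      RT G x y (f q) (f '' Desc T r q) h := by
    intro i hi
    have h3 : (T.neighborSet (g (i + 1))).ncard = 3 := by
      rcases hdeg (g (i + 1)) with h | h
      · exact h
      · exfalso
        obtain ⟨c, hc⟩ := Set.ncard_eq_one.1 h
        have h1 : g i ∈ T.neighborSet (g (i + 1)) := (hgadj i (by omega)).symm
        have h2 : g (i + 2) ∈ T.neighborSet (g (i + 1)) := hgadj (i + 1) (by omega)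
        rw [hc, Set.mem_singleton_iff] at h1 h2
        have h4 := hgd i (by omega)
        have h5 := hgd (i + 2) (by omega)
        rw [h1] at h4
        rw [h2] at h5
        omega
    obtain ⟨a, b, hab, h1, h2, h4, h5⟩ := two_children hT r h3
    rw [hgd (i + 1) (by omega)] at h4 h5
    by_cases ha : a = g (i + 2)
    · obtain ⟨h, H⟩ := hRT E b (by omega)
      exact ⟨b, h, h2, h5, fun hb => hab (ha.trans hb.symm), H⟩
    · obtain ⟨h, H⟩ := hRT E a (by omega)
      exact ⟨a, h, h1, h4, ha, H⟩
  have : Nonempty W := ⟨r⟩
  choose! q h hq1 hq2 hq3 hq4 using hq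
  -- the pieces
  have hdesc_g : ∀ d i, i + d ≤ n → Desc T r (g (i + d)) ⊆ Desc T r (g i) := by
    intro d
    induction d with
    | zero => intro i _; exact subset_rfl
    | succ d ih =>
      intro i hi w hw
      have h1 := (child_desc hT (hgadj (i + d) (by omega)) (by
        rw [hgd (i + d) (by omega)]
        exact hgd (i + d + 1) (by omega)) hw).1
      exact ih i (by omega) h1
  have hpiece : ∀ i, i < n - 1 → insert (g (i + 1)) (Desc T r (q i)) ⊆ Desc T r (g (i + 1)) := by
    intro i hi w hw
    rcases hw with rfl | hw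
    · exact self_mem_desc r _
    · exact (child_desc hT (hq1 i hi) (by rw [hgd (i + 1) (by omega), hq2 i hi]) hw).1
  have hdisj : ∀ i j, i < j → j < n - 1 →
      Disjoint (insert (g (i + 1)) (Desc T r (q i))) (insert (g (j + 1)) (Desc T r (q j))) := by
    intro i j hij hj
    have h1 : insert (g (j + 1)) (Desc T r (q j)) ⊆ Desc T r (g (i + 2)) := by
      refine (hpiece j hj).trans ?_
      have := hdesc_g (j - 1 - i) (i + 2) (by omega)
      have e : i + 2 + (j - 1 - i) = j + 1 := by omega
      rw [e] at this
      exact this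
    refine Set.disjoint_of_subset_right h1 ?_
    rw [Set.disjoint_insert_left]
    refine ⟨?_, ?_⟩
    · exact parent_not_mem (hgadj (i + 1) (by omega)) (by
        rw [hgd (i + 1) (by omega)]; exact hgd (i + 2) (by omega))
    · exact children_disjoint hT (hq1 i (by omega)) (hgadj (i + 1) (by omega))
        (by rw [hgd (i + 1) (by omega), hq2 i (by omega)])
        (by rw [hgd (i + 1) (by omega)]; exact hgd (i + 2) (by omega)) (hq3 i (by omega))
  refine ⟨fun i => f (g (i + 1)), fun i => f '' (insert (g (i + 1)) (Desc T r (q i))),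
    fun i => h i + 1, ?_⟩
  refine ⟨hxy, ?_, ?_, ?_, ?_, ?_, ?_, ?_⟩
  · intro i hi
    exact hadj _ _ (hgadj (i + 1) (by omega))
  · intro i j hi hj hij
    rw [Set.disjoint_image_iff hf]
    rcases Nat.lt_or_gt_of_ne hij with hlt | hgt
    · exact hdisj i j hlt hj
    · exact (hdisj j i hgt hi).symm
  · rintro i hi ⟨w, hw, he⟩
    exact hx w he
  · rintro i hi ⟨w, hw, he⟩
    exact hy w he
  · intro i hi
    omega
  · intro i hi
    obtain ⟨t, ht, hp⟩ := (hq4 i hi).down
    refine ⟨t, ht, ?_⟩
    have h1 := hp.join (hadj _ _ (hq1 i hi)).symm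
      (Pth.nil (Set.mem_singleton (f (g (i + 1))))) (by
        rw [Set.disjoint_singleton_right, hf.mem_set_image]
        exact parent_not_mem (hq1 i hi) (by rw [hgd (i + 1) (by omega), hq2 i hi]))
    refine h1.mono ?_
    rw [Set.image_insert_eq]
    intro v hv
    rcases hv with hv | hv
    · exact Or.inr hv
    · exact Or.inl hv
  · intro i hi m hm
    obtain ⟨t, t', ht, ht', hp⟩ := (hq4 i hi).small m (by omega)
    refine ⟨t, t', ht, ht', hp.mono ?_⟩
    rw [Set.image_insert_eq]
    exact Set.subset_insert _ _

end embed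

end Pool.Agent.GT45
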